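import Pool.Agent.Y757.GM.Stm

set_option autoImplicit false

/-! The random model of the weighted sums over the primes. -/

namespace Pool.Agent.Y220.GM

open MeasureTheory Set Filter Topology Pool.Agent.Y757.LS Pool.Agent.Y757.EM ZU
open Pool.Agent.Y757.GM
open scoped ENNReal

noncomputable section

variable {ω : Measure (ℝ × ℝ)} {W R : ℝ}

lemma wt_finite (h : Wt ω W R) : IsFiniteMeasure ω := by
  constructor
  have h1 : ω univ = ω (Prod.fst ⁻¹' (Ioc 0 R)) := by
    have h2 : ∀ᵐ q ∂ω, q ∈ Prod.fst ⁻¹' (Ioc 0 R) := h.supp.mono fun q hq => ⟨hq.1, hq.2.1⟩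
    exact measure_congr (eventuallyEq_univ.2 h2).symm
  rw [h1, ← Measure.map_apply measurable_fst measurableSet_Ioc]
  refine (Measure.le_iff'.1 h.dens _).trans_lt ?_
  rw [Measure.smul_apply, Real.volume_Ioc, smul_eq_mul]
  exact ENNReal.mul_lt_top ENNReal.ofReal_lt_top ENNReal.ofReal_lt_top

/-! ### the functions `ps` -/

lemma ps_meas {p : ℕ} (hp : 2 ≤ p) {α : Type*} [MeasurableSpace α] {u v : α → ℝ}
    (hu : Measurable u) (hv : Measurable v) : Measurable (fun x => ps p (u x) (v x)) := by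
  have e : (fun x => ps p (u x) (v x)) =
      fun x => psi p (u x) (v x * (2 * Real.pi / Real.log p)) := by
    funext x
    exact ps_eq_psi hp _ _
  rw [e]
  exact psi_meas_comp p hu (hv.mul_const _)

lemma ps_cont {p : ℕ} (hp : 2 ≤ p) {x : ℝ} (hx : 0 ≤ x) : Continuous (ps p x) := by
  unfold ps
  refine Continuous.neg (Continuous.log ?_ ?_)
  · fun_prop
  · intro θ
    have hr := rp_le' hp hx
    have hr0 := rp_pos hp x
    have h1 : ‖(((p : ℝ) ^ (-(1 / 2 + x)) : ℝ) : ℂ) *
        Complex.exp (((-(2 * Real.pi * θ) : ℝ) : ℂ) * Complex.I)‖ = rp p x := by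
      rw [norm_mul, Complex.norm_exp_ofReal_mul_I, mul_one, Complex.norm_real,
        Real.norm_of_nonneg]
      · rfl
      · exact hr0.le
    intro h0
    rw [norm_eq_zero, sub_eq_zero] at h0
    rw [← h0, norm_one] at h1
    linarith

lemma ps_per (p : ℕ) (x θ : ℝ) : ps p x (θ + 1) = ps p x θ := by
  unfold ps
  have : Complex.exp (((-(2 * Real.pi * (θ + 1)) : ℝ) : ℂ) * Complex.I) =
      Complex.exp (((-(2 * Real.pi * θ) : ℝ) : ℂ) * Complex.I) := by
    rw [Complex.exp_eq_exp_iff_exists_int]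
    exact ⟨-1, by push_cast; ring⟩
  rw [this]

lemma ps_three {p : ℕ} (hp : 2 ≤ p) {x : ℝ} (hx : 0 ≤ x) (θ : ℝ) : |ps p x θ| ≤ 3 := by
  have h1 := ps_bound hp hx θ
  have h2 := rp_le' hp hx
  linarith

lemma ps_mean {p : ℕ} (hp : 2 ≤ p) {x : ℝ} (hx : 0 ≤ x) : ∫ θ in (0:ℝ)..1, ps p x θ = 0 := by
  obtain ⟨g1, g2⟩ := geom_bd (rp_pos hp x).le (rp_le' hp hx)
  have hlog := log_p_pos hp
  have hlog0 : Real.log p ≠ 0 := by linarith
  set F : ℕ → ℝ → ℝ := fun m θ => rp p x ^ (m + 1) / (m + 1) *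
    Real.cos (2 * Real.pi * (m + 1) * θ) with hF
  have hsumF : ∀ θ, HasSum (fun m => F m θ) (ps p x θ) := by
    intro θ
    rw [ps_eq_psi hp]
    have h1 := psi_hasSum hp hx (θ * (2 * Real.pi / Real.log p))
    have e : (fun m : ℕ => rp p x ^ (m + 1) / (m + 1) *
        Real.cos ((m + 1) * (θ * (2 * Real.pi / Real.log p) * Real.log p))) =
        fun m => F m θ := by
      funext m
      simp only [hF]
      congr 2
      field_simp
    rw [e] at h1
    exact h1
  have hcont : ∀ m, Continuous (F m) := fun m => by simp only [hF]; fun_prop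
  have hint : ∀ m, Integrable (F m) (volume.restrict (Ioc 0 1)) :=
    fun m => (hcont m).integrableOn_Ioc
  have hle : ∀ m θ, ‖F m θ‖ ≤ rp p x ^ (m + 1) := by
    intro m θ
    simp only [hF]
    rw [norm_mul, Real.norm_eq_abs, Real.norm_eq_abs, abs_div,
      abs_of_pos (pow_pos (rp_pos hp x) _), abs_of_pos (by positivity : (0:ℝ) < m + 1)]
    have h4 := Real.abs_cos_le_one (2 * Real.pi * (m + 1) * θ)
    have h5 : rp p x ^ (m + 1) / ((m : ℝ) + 1) ≤ rp p x ^ (m + 1) := by
      apply div_le_self (pow_pos (rp_pos hp x) _).le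
      have : (0:ℝ) ≤ m := by positivity
      linarith
    have h6 := (pow_pos (rp_pos hp x) (m + 1)).le
    calc _ ≤ rp p x ^ (m + 1) * 1 := by gcongr
      _ = _ := mul_one _
  have hsum : Summable fun m => ∫ s, ‖F m s‖ ∂(volume.restrict (Ioc 0 1)) := by
    refine Summable.of_nonneg_of_le (fun m => integral_nonneg fun t => norm_nonneg _) (fun m => ?_)
      g1.summable
    calc ∫ t in Ioc (0:ℝ) 1, ‖F m t‖ ≤ ∫ t in Ioc (0:ℝ) 1, rp p x ^ (m + 1) :=
          integral_mono (hint m).norm (integrable_const _) (hle m)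
      _ = _ := by simp
  have h3 := hasSum_integral_of_summable_integral_norm hint hsum
  rw [intervalIntegral.integral_of_le zero_le_one]
  have h4 : ∫ t in Ioc (0:ℝ) 1, ps p x t = ∑' m, ∫ t in Ioc (0:ℝ) 1, F m t := by
    rw [h3.tsum_eq]
    refine integral_congr_ae (Eventually.of_forall fun t => ?_)
    exact (hsumF t).tsum_eq.symm
  rw [h4]
  have h5 : ∀ m, ∫ t in Ioc (0:ℝ) 1, F m t = 0 := by
    intro m
    simp only [hF]
    rw [integral_const_mul, ← intervalIntegral.integral_of_le zero_le_one]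
    have ha : 2 * Real.pi * ((m : ℝ) + 1) ≠ 0 := by positivity
    have h1 : ∀ t ∈ uIcc (0:ℝ) 1, HasDerivAt (fun t => Real.sin (2 * Real.pi * ((m : ℝ) + 1) * t) /
        (2 * Real.pi * ((m : ℝ) + 1))) (Real.cos (2 * Real.pi * ((m : ℝ) + 1) * t)) t := by
      intro t _
      have h2 : HasDerivAt (fun t => 2 * Real.pi * ((m : ℝ) + 1) * t)
          (2 * Real.pi * ((m : ℝ) + 1)) t := by
        simpa using (hasDerivAt_id t).const_mul (2 * Real.pi * ((m : ℝ) + 1))
      have h3 := ((Real.hasDerivAt_sin (2 * Real.pi * ((m : ℝ) + 1) * t)).comp t h2).div_const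
        (2 * Real.pi * ((m : ℝ) + 1))
      rw [mul_div_assoc, div_self ha, mul_one] at h3
      exact h3
    rw [intervalIntegral.integral_eq_sub_of_hasDerivAt h1
      ((by fun_prop : Continuous fun t =>
        Real.cos (2 * Real.pi * ((m : ℝ) + 1) * t)).intervalIntegrable _ _)]
    have : Real.sin (2 * Real.pi * ((m : ℝ) + 1) * 1) = 0 := by
      have h6 := Real.sin_nat_mul_pi (2 * (m + 1))
      push_cast at h6
      rw [← h6]
      congr 1; ring
    rw [this]
    simp
  simp only [h5, tsum_zero]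

/-! ### the local variables -/

lemma Lw_cont (h : Wt ω W R) {p : ℕ} (hp : 2 ≤ p) : Continuous (Lw ω p) := by
  have := wt_finite h
  unfold Lw
  refine continuous_of_dominated (bound := fun _ => (3:ℝ)) (fun θ => ?_) (fun θ => ?_)
    (integrable_const _) ?_
  · exact (ps_meas hp measurable_fst
      (measurable_const.add (measurable_snd.mul_const _))).aestronglyMeasurable
  · filter_upwards [h.supp] with q hq
    rw [Real.norm_eq_abs]
    exact ps_three hp hq.1.le _
  · filter_upwards [h.supp] with q hq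
    exact (ps_cont hp hq.1.le).comp (by fun_prop)

lemma Lw_per (ω : Measure (ℝ × ℝ)) (p : ℕ) : Function.Periodic (Lw ω p) 1 := by
  intro θ
  unfold Lw
  refine integral_congr_ae (Eventually.of_forall fun q => ?_)
  show ps p q.1 (θ + 1 + q.2 * (Real.log p / (2 * Real.pi))) =
    ps p q.1 (θ + q.2 * (Real.log p / (2 * Real.pi)))
  rw [add_right_comm, ps_per]

lemma Lw_mean (h : Wt ω W R) {p : ℕ} (hp : 2 ≤ p) : ∫ θ in (0:ℝ)..1, Lw ω p θ = 0 := by
  have := wt_finite h
  unfold Lw
  rw [intervalIntegral.integral_of_le zero_le_one]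
  have hsw := integral_integral_swap (μ := volume.restrict (Ioc (0:ℝ) 1)) (ν := ω)
    (f := fun θ q => ps p q.1 (θ + q.2 * (Real.log p / (2 * Real.pi)))) ?_
  · rw [hsw]
    refine integral_eq_zero_of_ae ?_
    filter_upwards [h.supp] with q hq
    show ∫ θ in Ioc (0:ℝ) 1, ps p q.1 (θ + q.2 * (Real.log p / (2 * Real.pi))) = 0
    rw [← intervalIntegral.integral_of_le zero_le_one,
      intervalIntegral.integral_comp_add_right (fun θ => ps p q.1 θ), zero_add, add_comm 1]
    have hper : Function.Periodic (fun θ => ps p q.1 θ) 1 := fun θ => ps_per p q.1 θ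
    have h2 := hper.intervalIntegral_add_eq (q.2 * (Real.log p / (2 * Real.pi))) 0
    rw [zero_add] at h2
    rw [h2]
    exact ps_mean hp hq.1.le
  · refine Integrable.of_bound ?_ 3 ?_
    · refine Measurable.aestronglyMeasurable ?_
      exact ps_meas hp (measurable_fst.comp measurable_snd)
        (measurable_fst.add ((measurable_snd.comp measurable_snd).mul_const _))
    · have h3 : ∀ᵐ z ∂((volume.restrict (Ioc (0:ℝ) 1)).prod ω), 0 < z.2.1 :=
        Measure.quasiMeasurePreserving_snd.ae (h.supp.mono fun q hq => hq.1)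
      filter_upwards [h3] with z hz
      rw [Real.norm_eq_abs]
      exact ps_three hp hz.le _

lemma rp_eq {p : ℕ} (hp : 2 ≤ p) (x : ℝ) : rp p x = rp p 0 * Real.exp (-Real.log p * x) := by
  have h := rp_exp hp x 0
  simp only [Nat.cast_zero, zero_add, one_mul, pow_one] at h
  exact h

lemma rp_lint (h : Wt ω W R) {p : ℕ} (hp : 2 ≤ p) :
    ∫⁻ q, ENNReal.ofReal (rp p q.1) ∂ω ≤ ENNReal.ofReal (W * (rp p 0 / Real.log p)) := by
  have hlog := log_p_pos hp
  have hm : Measurable (fun x : ℝ => rp p x) := by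
    have : (fun x : ℝ => rp p x) = fun x => rp p 0 * Real.exp (-Real.log p * x) :=
      funext fun x => rp_eq hp x
    rw [this]
    fun_prop
  set G : ℝ → ℝ≥0∞ := (Ioi (0:ℝ)).indicator (fun x => ENNReal.ofReal (rp p x)) with hG
  have hGm : Measurable G := (hm.ennreal_ofReal).indicator measurableSet_Ioi
  have h1 : ∫⁻ q, ENNReal.ofReal (rp p q.1) ∂ω = ∫⁻ q, G q.1 ∂ω := by
    refine lintegral_congr_ae ?_
    filter_upwards [h.supp] with q hq
    rw [hG, indicator_of_mem (mem_Ioi.2 hq.1)]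
  have h2 : ∫⁻ q, G q.1 ∂ω = ∫⁻ x, G x ∂(ω.map Prod.fst) := (lintegral_map hGm measurable_fst).symm
  have h3 : ∫⁻ x, G x ∂(ω.map Prod.fst) ≤ ∫⁻ x, G x ∂(ENNReal.ofReal W • (volume : Measure ℝ)) :=
    lintegral_mono' h.dens le_rfl
  have h4 : ∫⁻ x, G x ∂(ENNReal.ofReal W • (volume : Measure ℝ)) =
      ENNReal.ofReal W * ∫⁻ x in Ioi (0:ℝ), ENNReal.ofReal (rp p x) := by
    rw [lintegral_smul_measure, hG, lintegral_indicator measurableSet_Ioi, smul_eq_mul]
  have hi : IntegrableOn (fun x : ℝ => rp p x) (Ioi 0) := by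
    have : (fun x : ℝ => rp p x) = fun x => rp p 0 * Real.exp (-Real.log p * x) :=
      funext fun x => rp_eq hp x
    rw [this]
    exact (integrableOn_exp_mul_Ioi (by linarith) 0).const_mul _
  have h5 : ∫⁻ x in Ioi (0:ℝ), ENNReal.ofReal (rp p x) = ENNReal.ofReal (rp p 0 / Real.log p) := by
    rw [← ofReal_integral_eq_lintegral_ofReal hi (Eventually.of_forall fun x => (rp_pos hp x).le)]
    congr 1
    have : (fun x : ℝ => rp p x) = fun x => rp p 0 * Real.exp (-Real.log p * x) :=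
      funext fun x => rp_eq hp x
    rw [this, integral_const_mul, integral_exp_mul_Ioi (by linarith), mul_zero, Real.exp_zero]
    field_simp
  rw [h1, h2]
  refine h3.trans ?_
  rw [h4, h5, ENNReal.ofReal_mul h.W0]

lemma Lw_bound (h : Wt ω W R) {p : ℕ} (hp : 2 ≤ p) (θ : ℝ) :
    |Lw ω p θ| ≤ W * (4 * rp p 0 / Real.log p) := by
  have hlog := log_p_pos hp
  have hr := rp_pos hp 0
  have hW := h.W0
  have h1 : ‖Lw ω p θ‖ₑ ≤ ENNReal.ofReal (W * (4 * rp p 0 / Real.log p)) := by
    unfold Lw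
    refine (enorm_integral_le_lintegral_enorm _).trans ?_
    have h2 : ∫⁻ q, ‖ps p q.1 (θ + q.2 * (Real.log p / (2 * Real.pi)))‖ₑ ∂ω ≤
        ∫⁻ q, ENNReal.ofReal 4 * ENNReal.ofReal (rp p q.1) ∂ω := by
      refine lintegral_mono_ae ?_
      filter_upwards [h.supp] with q hq
      rw [← ENNReal.ofReal_mul (by norm_num), Real.enorm_eq_ofReal_abs]
      exact ENNReal.ofReal_le_ofReal (ps_bound hp hq.1.le _)
    refine h2.trans ?_
    rw [lintegral_const_mul' _ _ ENNReal.ofReal_ne_top]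
    have h3 : W * (4 * rp p 0 / Real.log p) = 4 * (W * (rp p 0 / Real.log p)) := by ring
    rw [h3, ENNReal.ofReal_mul (by norm_num)]
    gcongr
    exact rp_lint h hp
  rw [Real.enorm_eq_ofReal_abs] at h1
  exact (ENNReal.ofReal_le_ofReal_iff (by positivity)).1 h1

lemma exp_two_real (x : ℝ) : |Real.exp x - 1 - x| ≤ |x| ^ 2 * Real.exp |x| := by
  have h := exp_two (x : ℂ)
  have e : Complex.exp (x : ℂ) - 1 - (x : ℂ) = ((Real.exp x - 1 - x : ℝ) : ℂ) := by
    push_cast
    rfl
  rw [e, Complex.norm_real, Complex.norm_real, Real.norm_eq_abs, Real.norm_eq_abs] at h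
  exact h

lemma M_sq {p : ℕ} (hp : 2 ≤ p) : (4 * rp p 0 / Real.log p) ^ 2 ≤
    64 * (1 / ((p : ℝ) * Real.log (2 * p) ^ 2)) := by
  have hlog := log_p_pos hp
  have hp1 : (0:ℝ) < p := by exact_mod_cast (by omega : 0 < p)
  have hp2 : (2:ℝ) ≤ p := by exact_mod_cast hp
  rw [div_pow, mul_pow, rp_zero_sq hp]
  have h8 : Real.log (2 * p) ≤ 2 * Real.log p := by
    rw [Real.log_mul (by norm_num) hp1.ne']
    have := Real.log_le_log (by norm_num) hp2
    linarith
  have h9 : 0 < Real.log (2 * p) := Real.log_pos (by linarith)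
  have h10 : Real.log (2 * p) ^ 2 ≤ (2 * Real.log p) ^ 2 := by gcongr
  rw [div_le_iff₀ (by positivity)]
  have h11 : 64 * (1 / ((p : ℝ) * Real.log (2 * p) ^ 2)) * Real.log p ^ 2 =
      16 * (1 / p) * ((2 * Real.log p) ^ 2 / Real.log (2 * p) ^ 2) := by
    field_simp; ring
  rw [h11]
  have h12 : 1 ≤ (2 * Real.log p) ^ 2 / Real.log (2 * p) ^ 2 := by
    rw [le_div_iff₀ (by positivity)]; linarith
  have h13 : 0 ≤ 16 * (1 / (p:ℝ)) := by positivity
  nlinarith

lemma facw_bound (h : Wt ω W R) {p : ℕ} (hp : 2 ≤ p) : ‖facw ω p - 1‖ ≤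
    W ^ 2 * Real.exp (W * 6) * 64 * (1 / ((p : ℝ) * Real.log (2 * p) ^ 2)) := by
  have hlog := log_p_pos hp
  have hW := h.W0
  obtain ⟨M, hM⟩ : ∃ M : ℝ, M = 4 * rp p 0 / Real.log p := ⟨_, rfl⟩
  have hM0 : 0 ≤ M := by have := rp_pos hp 0; rw [hM]; positivity
  have hM6 : M ≤ 6 := by
    rw [hM, div_le_iff₀ (by linarith)]
    have := rp_zero_le hp
    linarith
  have hc2 : Continuous (Lw ω p) := Lw_cont h hp
  have hc : Continuous (fun θ : ℝ => Real.exp (Lw ω p θ)) := Real.continuous_exp.comp hc2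
  have h1 : facw ω p - 1 = ∫ θ in (0:ℝ)..1, (Real.exp (Lw ω p θ) - 1 - Lw ω p θ) := by
    have c1 : Continuous (fun θ : ℝ => Real.exp (Lw ω p θ) - 1) := hc.sub continuous_const
    have c3 : Continuous (fun _ : ℝ => (1 : ℝ)) := continuous_const
    rw [intervalIntegral.integral_sub (c1.intervalIntegrable _ _)
      (hc2.intervalIntegrable _ _), intervalIntegral.integral_sub (hc.intervalIntegrable _ _)
      (c3.intervalIntegrable _ _), Lw_mean h hp]
    simp [facw]
  have h2 : ∀ θ : ℝ, ‖Real.exp (Lw ω p θ) - 1 - Lw ω p θ‖ ≤ (W * M) ^ 2 * Real.exp (W * 6) := by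
    intro θ
    have h3 : |Lw ω p θ| ≤ W * M := by rw [hM]; exact Lw_bound h hp θ
    have h4 : W * M ≤ W * 6 := by gcongr
    rw [Real.norm_eq_abs]
    refine (exp_two_real _).trans ?_
    have h5 := abs_nonneg (Lw ω p θ)
    gcongr
    exact h3.trans h4
  rw [h1]
  have h6 := intervalIntegral.norm_integral_le_of_norm_le_const (a := 0) (b := 1)
    (fun θ _ => h2 θ)
  refine h6.trans ?_
  rw [sub_zero, abs_one, mul_one]
  have h7 := M_sq hp
  rw [← hM] at h7
  calc (W * M) ^ 2 * Real.exp (W * 6) = W ^ 2 * Real.exp (W * 6) * M ^ 2 := by ring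
    _ ≤ W ^ 2 * Real.exp (W * 6) * (64 * (1 / ((p : ℝ) * Real.log (2 * p) ^ 2))) := by gcongr
    _ = _ := by ring

theorem facw_mult (h : Wt ω W R) : Multipliable (fun p : Nat.Primes => facw ω p) := by
  have h1 : Summable (fun p : Nat.Primes => ‖facw ω p - 1‖) := by
    refine Summable.of_nonneg_of_le (fun p => norm_nonneg _) (fun p => facw_bound h p.2.two_le) ?_
    exact (summable_log.mul_left (W ^ 2 * Real.exp (W * 6) * 64)).subtype _
  have h2 := multipliable_one_add_of_summable h1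
  simpa using h2

theorem facw_tendsto (h : Wt ω W R) :
    Tendsto (fun N : ℕ => ∏ p ∈ pr N, facw ω p) atTop (𝓝 (Cw ω)) := by
  have h1 := (facw_mult h).hasProd
  have h2 : Tendsto (fun N : ℕ => (Finset.Icc 1 N).subtype Nat.Prime) atTop atTop := by
    refine tendsto_atTop_finset_of_monotone ?_ ?_
    · intro a b hab
      exact Finset.subtype_mono (Finset.Icc_subset_Icc_right hab)
    · intro p
      exact ⟨p.1, by
        rw [Finset.mem_subtype, Finset.mem_Icc]
        exact ⟨p.2.one_lt.le, le_rfl⟩⟩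
  have h3 := h1.comp h2
  refine h3.congr fun N => ?_
  unfold pr
  rw [← Finset.prod_subtype_eq_prod_filter]
  rfl

lemma Xw_bound (h : Wt ω W R) (N : ℕ) : ∃ B : ℝ, ∀ t : ℝ, |Xw ω N t| ≤ B := by
  refine ⟨∑ p ∈ pr N, W * (4 * rp p 0 / Real.log p), fun t => ?_⟩
  unfold Xw
  refine (Finset.abs_sum_le_sum_abs _ _).trans (Finset.sum_le_sum fun p hp => ?_)
  exact Lw_bound h (pr_two hp) _

lemma Xw_cont (h : Wt ω W R) (N : ℕ) : Continuous (Xw ω N) := by
  unfold Xw
  refine continuous_finsetSum _ fun p hp => ?_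
  exact (Lw_cont h (pr_two hp)).comp (by fun_prop)

/-! ### the mean value -/

/-- the local variable on the circle -/
def Dw (h : Wt ω W R) {p : ℕ} (hp : 2 ≤ p) : C(UnitAddCircle, ℝ) where
  toFun := (Lw_per ω p).lift
  continuous_toFun := by
    have hq : IsQuotientMap (QuotientAddGroup.mk : ℝ → ℝ ⧸ AddSubgroup.zmultiples (1:ℝ)) :=
      QuotientAddGroup.isQuotientMap_mk _
    exact hq.continuous_iff.2 (Lw_cont h hp)

lemma Dw_coe (h : Wt ω W R) {p : ℕ} (hp : 2 ≤ p) (θ : ℝ) :
    Dw h hp (θ : UnitAddCircle) = Lw ω p θ := rfl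

theorem avw (h : Wt ω W R) (N : ℕ) :
    Tendsto (fun T : ℝ => 1 / T * ∫ t in (1:ℝ)..T, Real.exp (Xw ω N t)) atTop
      (𝓝 (∏ p ∈ pr N, facw ω p)) := by
  set ι := {p // p ∈ pr N} with hι
  have hp : ∀ i : ι, 2 ≤ i.1 := fun i => pr_two i.2
  set fr : ι → ℝ := fun i => Real.log i.1 / (2 * Real.pi) with hfr
  set Φ : C(UnitAddTorus ι, ℂ) :=
    ⟨fun x => ∏ i : ι, Complex.exp (((Dw h (hp i) (x i) : ℝ) : ℂ)), by
      refine continuous_finsetProd _ fun i _ => ?_
      refine Complex.continuous_exp.comp (Complex.continuous_ofReal.comp ?_)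
      exact (Dw h (hp i)).continuous.comp (continuous_apply i)⟩ with hΦ
  have hind : ∀ n : ι → ℤ, ∑ i, (n i : ℝ) * fr i = 0 → n = 0 := by
    intro n hn
    classical
    set m : ℕ → ℤ := fun p => if h : p ∈ pr N then n ⟨p, h⟩ else 0 with hm
    have h1 : ∑ p ∈ pr N, (m p : ℝ) * Real.log p = 0 := by
      have h2 : ∑ i : ι, (n i : ℝ) * fr i = (∑ i : ι, (m i.1 : ℝ) * Real.log i.1) / (2 * Real.pi) := by
        rw [Finset.sum_div]
        refine Finset.sum_congr rfl fun i _ => ?_
        have : m i.1 = n i := by simp only [hm]; rw [dif_pos i.2]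
        rw [this, hfr, mul_div_assoc]
      rw [hn] at h2
      have h3 : ∑ i : ι, (m i.1 : ℝ) * Real.log i.1 = 0 := by
        have := (div_eq_zero_iff.1 h2.symm)
        rcases this with h | h
        · exact h
        · exact absurd h (by positivity)
      rw [← h3]
      exact (Finset.sum_coe_sort (pr N) (fun p => (m p : ℝ) * Real.log p)).symm
    have h4 := indep (pr N) (fun p hp => pr_pr hp) m h1
    funext i
    have h5 := h4 i.1 i.2
    simp only [hm] at h5
    rw [dif_pos i.2] at h5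
    exact h5
  have hw := weyl hind Φ
  have hint : ∫ x, Φ x ∂(haarT ι) = ((∏ p ∈ pr N, facw ω p : ℝ) : ℂ) := by
    unfold haarT
    simp only [hΦ, ContinuousMap.coe_mk]
    rw [integral_fintype_prod_eq_prod (𝕜 := ℂ) (ι := ι) (E := fun _ => UnitAddCircle)
      (f := fun i x => Complex.exp (((Dw h (hp i) x : ℝ) : ℂ))) (μ := fun _ => AddCircle.haarAddCircle)]
    rw [Complex.ofReal_prod, ← Finset.prod_coe_sort (pr N) (fun p => ((facw ω p : ℝ) : ℂ))]
    refine Finset.prod_congr rfl fun i _ => ?_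
    rw [circle_int]
    unfold facw
    rw [← intervalIntegral.integral_ofReal]
    refine intervalIntegral.integral_congr fun θ _ => ?_
    show Complex.exp _ = _
    rw [Dw_coe, Complex.ofReal_exp]
  rw [hint] at hw
  have hre := (Complex.continuous_re.tendsto _).comp hw
  rw [Complex.ofReal_re] at hre
  refine hre.congr fun T => ?_
  have e1 : (fun t => Φ (ln fr t)) = fun t => ((Real.exp (Xw ω N t) : ℝ) : ℂ) := by
    funext t
    simp only [hΦ, ContinuousMap.coe_mk]
    unfold Xw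
    rw [← Finset.sum_coe_sort (pr N) (fun p => Lw ω p (t * (Real.log p / (2 * Real.pi)))),
      Complex.ofReal_exp, Complex.ofReal_sum, Complex.exp_sum]
    refine Finset.prod_congr rfl fun i _ => ?_
    unfold ln
    rw [Dw_coe]
  show (av T (fun t => Φ (ln fr t))).re = _
  rw [e1]
  unfold av
  rw [intervalIntegral.integral_ofReal, ← Complex.ofReal_mul, Complex.ofReal_re]

theorem t_eul : S_eul := by
  intro ω W R h
  exact ⟨Xw_cont h, Xw_bound h, avw h, facw_mult h, facw_tendsto h⟩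

end

end Pool.Agent.Y220.GM
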